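import Pool.Agent.N62.AG.Stm
import Pool.Agent.Y668.Desc
import Pool.Agent.Y668.AlAdd

/-!
AG/CPL (project AG of helper62): completeness of the search.
-/

set_option autoImplicit false

namespace Pool.Agent.N360.AG.CPL

open Pool.Agent.N62.AG Pool.Agent.Y668 WeierstrassCurve

/-- a finitely generated group `A = 2 A + A[2 ^ ∞]` is finite (copy of the lemma of `Y17`) -/
lemma fin_of {A : Type} [AddCommGroup A] (hfg : AddGroup.FG A)
    (h : ∀ P : A, ∃ Q T : A, P = Q + Q + T ∧ ∃ m : ℕ, (2 ^ m : ℕ) • T = 0) : Finite A := by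
  have hM : Module.Finite ℤ A := Module.Finite.iff_addGroup_fg.2 hfg
  let t : Submodule ℤ A := Submodule.torsion ℤ A
  have hTt : ∀ T : A, (∃ m : ℕ, (2 ^ m : ℕ) • T = 0) → T ∈ t := by
    rintro T ⟨m, hm⟩
    rw [Submodule.mem_torsion_iff]
    refine ⟨⟨((2 ^ m : ℕ) : ℤ), mem_nonZeroDivisors_of_ne_zero (by positivity)⟩, ?_⟩
    change ((2 ^ m : ℕ) : ℤ) • T = 0
    rw [natCast_zsmul, hm]
  have hle : (⊤ : Submodule ℤ (A ⧸ t)) ≤ (Ideal.span {(2 : ℤ)}) • (⊤ : Submodule ℤ (A ⧸ t)) := by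
    intro x _
    obtain ⟨P, rfl⟩ := Submodule.Quotient.mk_surjective t x
    obtain ⟨Q, T, hP, hT⟩ := h P
    have h1 : (Submodule.Quotient.mk P : A ⧸ t) = (2 : ℤ) • (Submodule.Quotient.mk Q : A ⧸ t) := by
      rw [← Submodule.Quotient.mk_smul, ← sub_eq_zero, ← Submodule.Quotient.mk_sub,
        Submodule.Quotient.mk_eq_zero, hP]
      have h2 : Q + Q + T - (2 : ℤ) • Q = T := by
        rw [two_smul]
        abel
      rw [h2]
      exact hTt T hT
    rw [h1]
    exact Submodule.smul_mem_smul (Ideal.mem_span_singleton_self 2) Submodule.mem_top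
  obtain ⟨r, hr1, hr2⟩ := Submodule.exists_sub_one_mem_and_smul_eq_zero_of_fg_of_le_smul
    (Ideal.span {(2 : ℤ)}) (⊤ : Submodule ℤ (A ⧸ t)) Module.Finite.fg_top hle
  have hr0 : r ≠ 0 := by
    rintro rfl
    rw [Ideal.mem_span_singleton] at hr1
    omega
  refine Module.finite_of_fg_torsion A fun P => ?_
  have h3 := hr2 (Submodule.Quotient.mk P) Submodule.mem_top
  rw [← Submodule.Quotient.mk_smul, Submodule.Quotient.mk_eq_zero, Submodule.mem_torsion_iff] at h3
  obtain ⟨a, ha⟩ := h3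
  refine ⟨⟨(a : ℤ) * r, mul_mem a.2 (mem_nonZeroDivisors_of_ne_zero hr0)⟩, ?_⟩
  change ((a : ℤ) * r) • P = 0
  rw [mul_smul]
  exact ha

section

open scoped Classical

/-! ### Finite generation (copy of the lemmas of `Y668/CP`) -/

lemma fg_aux {L : Type} [Field L] [NumberField L] {a b : ℚ} (hb : b ≠ 0) {e1 e2 : L}
    (hs : e1 + e2 = -algebraMap ℚ L a) (hp : e1 * e2 = algebraMap ℚ L b) (hne : e1 ≠ e2) :
    AddGroup.FG (Wt a b).toAffine.Point := by
  have he0 : e1 * e2 ≠ 0 := by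
    rw [hp]
    exact (map_ne_zero _).2 hb
  have he1 : e1 ≠ 0 := left_ne_zero_of_mul he0
  have he2 : e2 ≠ 0 := right_ne_zero_of_mul he0
  have hK : AddGroup.FG (Pool.Agent.H437R2.Man.MW.crv (-e1) 0 (-e2)).toAffine.Point :=
    Pool.Agent.H437R2.Man.MW.pt_fg (neg_ne_zero.2 he1) (fun h => hne (neg_injective h))
      (neg_ne_zero.2 he2).symm
  have heq : Pool.Agent.H437R2.Man.MW.crv (-e1) 0 (-e2) = (Wt a b).baseChange L := by
    rw [← crv_eq hs hp]
    simp only [Pool.Agent.H437R2.Man.MW.crv, Pool.Agent.H918R3.crv]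
    congr 1 <;> ring
  rw [heq] at hK
  exact Pool.Agent.H64R2.DCMW.fg_of_inj _ (emb_inj (L := L) a b) hK

theorem fg_Wt {a b : ℚ} (hb : b ≠ 0) (hd : a ^ 2 - 4 * b ≠ 0) :
    AddGroup.FG (Wt a b).toAffine.Point := by
  by_cases hsq : IsSquare (a ^ 2 - 4 * b)
  · obtain ⟨r, hr⟩ := hsq
    have hr0 : r ≠ 0 := by
      rintro rfl
      exact hd (by rw [hr]; ring)
    refine fg_aux (L := ℚ) hb (e1 := (-a + r) / 2) (e2 := (-a - r) / 2) ?_ ?_ ?_
    · change _ = -a
      ring
    · change _ = b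
      linear_combination (1 / 4 : ℚ) * hr
    · intro h
      apply hr0
      linear_combination h
  · have hF : Fact (∀ r : ℚ, r ^ 2 ≠ (a ^ 2 - 4 * b) + 0 * r) :=
      ⟨fun r hr => hsq ⟨r, by linear_combination -hr⟩⟩
    have hnf : NumberField (QuadraticAlgebra ℚ (a ^ 2 - 4 * b) 0) :=
      { to_charZero := inferInstance
        to_finiteDimensional := inferInstance }
    set ω : QuadraticAlgebra ℚ (a ^ 2 - 4 * b) 0 := ⟨0, 1⟩ with hω
    have hω2 : ω * ω = algebraMap ℚ _ (a ^ 2 - 4 * b) := by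
      rw [quad_map, hω, QuadraticAlgebra.mk_mul_mk]
      congr 1 <;> ring
    have h20 : (2 : QuadraticAlgebra ℚ (a ^ 2 - 4 * b) 0) ≠ 0 := two_ne_zero
    have hω0 : ω ≠ 0 := by
      intro h0
      have := congrArg QuadraticAlgebra.im h0
      simp [hω] at this
    set A := algebraMap ℚ (QuadraticAlgebra ℚ (a ^ 2 - 4 * b) 0) a with hA
    set B := algebraMap ℚ (QuadraticAlgebra ℚ (a ^ 2 - 4 * b) 0) b with hB
    have hD : algebraMap ℚ (QuadraticAlgebra ℚ (a ^ 2 - 4 * b) 0) (a ^ 2 - 4 * b) =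
        A ^ 2 - 4 * B := by
      rw [map_sub, map_mul, map_pow, map_ofNat]
    rw [hD] at hω2
    refine fg_aux (L := QuadraticAlgebra ℚ (a ^ 2 - 4 * b) 0) hb (e1 := (-A + ω) / 2)
      (e2 := (-A - ω) / 2) ?_ ?_ ?_
    · field_simp
      ring
    · rw [div_mul_div_comm, div_eq_iff (mul_ne_zero h20 h20)]
      linear_combination -hω2
    · intro h
      apply hω0
      have h5 : (-A + ω) / 2 * 2 = (-A - ω) / 2 * 2 := by rw [h]
      rw [div_mul_cancel₀ _ h20, div_mul_cancel₀ _ h20] at h5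
      have h6 : 2 * ω = 0 := by linear_combination h5
      exact (mul_eq_zero.1 h6).resolve_left h20


end

lemma sq_of {n : ℤ} (h : Sq n) : IsSquare (n : ℚ) := by
  obtain ⟨r, _, hr⟩ := h
  refine ⟨(r : ℚ), ?_⟩
  rw [← hr]
  push_cast
  ring

/-- common denominators -/
lemma com (x y : ℚ) : ∃ t1 t2 t3 : ℤ, t3 ≠ 0 ∧ x = t1 / t3 ∧ y = t2 / t3 := by
  refine ⟨x.num * y.den, y.num * x.den, x.den * y.den, ?_, ?_, ?_⟩
  · have h1 := x.den_nz
    have h2 := y.den_nz
    positivity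
  · have h1 : (x.den : ℚ) ≠ 0 := by exact_mod_cast x.den_nz
    have h2 : (y.den : ℚ) ≠ 0 := by exact_mod_cast y.den_nz
    push_cast
    rw [mul_div_mul_right _ _ h2]
    exact (Rat.num_div_den x).symm
  · have h1 : (x.den : ℚ) ≠ 0 := by exact_mod_cast x.den_nz
    have h2 : (y.den : ℚ) ≠ 0 := by exact_mod_cast y.den_nz
    push_cast
    rw [mul_comm (x.den : ℚ), mul_div_mul_right _ _ h1]
    exact (Rat.num_div_den y).symm

lemma sq_div {c t1 t3 : ℚ} (h3 : t3 ≠ 0) (h : IsSquare (c * (t1 * t3))) : IsSquare (c * (t1 / t3)) := by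
  obtain ⟨r, hr⟩ := h
  refine ⟨r / t3, ?_⟩
  field_simp
  linear_combination hr

lemma R1 {D : ℤ} (hC : ∀ t, ¬ C1 D t) {x y : ℚ}
    (h : y ^ 2 = x ^ 3 + (13 * D : ℚ) * x ^ 2 + (128 * D ^ 2 : ℚ) * x) (hx : x ≠ 0) :
    IsSquare x ∨ IsSquare (2 * x) := by
  obtain ⟨t1, t2, t3, h3, rfl, rfl⟩ := com x y
  have h3' : (t3 : ℚ) ≠ 0 := by exact_mod_cast h3
  have h1 : t1 ≠ 0 := by
    rintro rfl
    apply hx
    simp
  have heq : t2 * t2 * t3 = t1 * (t1 * t1) + 13 * D * (t1 * t1) * t3 +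
      128 * (D * D) * t1 * (t3 * t3) := by
    have h4 : (t2 : ℚ) * t2 * t3 = t1 * (t1 * t1) + 13 * D * (t1 * t1) * t3 +
        128 * (D * D) * t1 * (t3 * t3) := by
      field_simp at h
      linear_combination h
    exact_mod_cast h4
  have h5 := hC (t1, t2, t3)
  have h6 : Sq (t1 * t3) ∨ Sq (2 * (t1 * t3)) := by
    by_contra h7
    rw [not_or] at h7
    exact h5 ⟨h1, h3, heq, h7.1, h7.2⟩
  rcases h6 with h6 | h6
  · left
    have h7 := sq_of h6
    push_cast at h7
    have h8 := sq_div (c := 1) h3' (by rw [one_mul]; exact h7)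
    rw [one_mul] at h8
    exact h8
  · right
    have h7 := sq_of h6
    push_cast at h7
    exact sq_div h3' h7

lemma R2 {D : ℤ} (hC : ∀ t, ¬ C2 D t) {x y : ℚ}
    (h : y ^ 2 = x ^ 3 - (26 * D : ℚ) * x ^ 2 - (343 * D ^ 2 : ℚ) * x) (hx : x ≠ 0) :
    IsSquare x ∨ IsSquare (-7 * x) := by
  obtain ⟨t1, t2, t3, h3, rfl, rfl⟩ := com x y
  have h3' : (t3 : ℚ) ≠ 0 := by exact_mod_cast h3
  have h1 : t1 ≠ 0 := by
    rintro rfl
    apply hx
    simp
  have heq : t2 * t2 * t3 = t1 * (t1 * t1) - 26 * D * (t1 * t1) * t3 -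
      343 * (D * D) * t1 * (t3 * t3) := by
    have h4 : (t2 : ℚ) * t2 * t3 = t1 * (t1 * t1) - 26 * D * (t1 * t1) * t3 -
        343 * (D * D) * t1 * (t3 * t3) := by
      field_simp at h
      linear_combination h
    exact_mod_cast h4
  have h5 := hC (t1, t2, t3)
  have h6 : Sq (t1 * t3) ∨ Sq (-7 * (t1 * t3)) := by
    by_contra h7
    rw [not_or] at h7
    exact h5 ⟨h1, h3, heq, h7.1, h7.2⟩
  rcases h6 with h6 | h6
  · left
    have h7 := sq_of h6
    push_cast at h7
    have h8 := sq_div (c := 1) h3' (by rw [one_mul]; exact h7)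
    rw [one_mul] at h8
    exact h8
  · right
    have h7 := sq_of h6
    push_cast at h7
    exact sq_div h3' h7

theorem t : S_CPL := by
  classical
  intro D hD hinf
  by_contra hno
  rw [not_exists] at hno
  have hC1 : ∀ t, ¬ C1 D t := fun t ht => hno t (Or.inl ht)
  have hC2 : ∀ t, ¬ C2 D t := fun t ht => hno t (Or.inr ht)
  have hDq : (D : ℚ) ≠ 0 := by exact_mod_cast hD
  set a : ℚ := 13 * D with ha
  set b : ℚ := 128 * D ^ 2 with hbd
  have hb : b ≠ 0 := by rw [hbd]; positivity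
  have hd' : a ^ 2 - 4 * b = -7 * (7 * D) ^ 2 := by rw [ha, hbd]; ring
  have hd : a ^ 2 - 4 * b ≠ 0 := by
    rw [hd']
    exact mul_ne_zero (by norm_num) (by positivity)
  -- (i)
  have hal : ∀ P : (Wt a b).toAffine.Point, IsSquare (al a b P) ∨ IsSquare (2 * al a b P) := by
    intro P
    cases P with
    | zero => left; exact ⟨1, by change (1 : ℚ) = 1 * 1; ring⟩
    | some x y h =>
      rw [al_some]
      by_cases hx : x = 0
      · rw [if_pos hx]
        right
        exact ⟨16 * D, by rw [hbd]; ring⟩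
      · rw [if_neg hx]
        exact R1 hC1 (Wt_eqn.mp h.1) hx
  -- squares are halvable
  have hhalf : ∀ P : (Wt a b).toAffine.Point, IsSquare (al a b P) →
      ∃ Q : (Wt a b).toAffine.Point, P = Q + Q := by
    intro P hP
    obtain ⟨X, hX⟩ := NX_of P hP
    have hX0 := NX_ne hd hX
    refine NX_half hb hd hX ?_
    rcases NX_dual hX with h1 | ⟨Y, hY⟩
    · left; rw [h1]; exact ⟨1, by ring⟩
    · have h2 := R2 hC2 (x := X) (y := Y) (by rw [hY, hd', ha]; ring) hX0
      rcases h2 with h2 | ⟨r, hr⟩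
      · exact Or.inl h2
      · right
        refine ⟨r * (7 * D), ?_⟩
        rw [hd']
        linear_combination (7 * D : ℚ) ^ 2 * hr
  -- the point of order two
  have hns : (Wt a b).toAffine.Nonsingular 0 0 := by
    rw [Affine.nonsingular_iff]
    refine ⟨Wt_eqn.mpr (by ring), Or.inl ?_⟩
    simp only [Wt]
    intro h
    apply hb
    linear_combination (-1 : ℚ) * h
  set T : (Wt a b).toAffine.Point := Affine.Point.some 0 0 hns with hT
  have hTT : T + T = 0 := by
    have h1 : -T = T := by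
      rw [hT, Affine.Point.neg_some]
      congr 1
      simp [Affine.negY, Wt]
    calc T + T = T + -T := by rw [h1]
      _ = 0 := add_neg_cancel T
  have hfin : Finite (Wt a b).toAffine.Point := by
    refine fin_of (fg_Wt hb hd) fun P => ?_
    rcases hal P with h | h
    · obtain ⟨Q, hQ⟩ := hhalf P h
      exact ⟨Q, 0, by rw [add_zero]; exact hQ, 0, nsmul_zero _⟩
    · have h1 := al_add (two_ne_zero) P T
      have h2 : IsSquare (al a b (P + T)) := by
        obtain ⟨r, hr⟩ := h1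
        obtain ⟨s, hs⟩ := h
        have hP0 := al_ne hb P
        have hs0 : s ≠ 0 := by
          rintro rfl
          rw [mul_zero] at hs
          exact hP0 (by linarith)
        have hTb : al a b T = b := by rw [hT, al_some, if_pos rfl]
        rw [hTb] at hr
        refine ⟨r / (s * (8 * D)), ?_⟩
        have h8 : s * (8 * (D : ℚ)) ≠ 0 := mul_ne_zero hs0 (by positivity)
        rw [div_mul_div_comm, eq_div_iff (mul_ne_zero h8 h8), ← hr]
        linear_combination (-(al a b (P + T) * 64 * (D : ℚ) ^ 2)) * hs -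
          al a b (P + T) * al a b P * hbd
      obtain ⟨Q, hQ⟩ := hhalf _ h2
      refine ⟨Q, -T, ?_, 1, ?_⟩
      · rw [← hQ, add_neg_cancel_right]
      · rw [pow_one, two_nsmul, ← neg_add, hTT, neg_zero]
  -- the injection
  have hmap : ∀ p : Pts D, (Wt a b).toAffine.Nonsingular ((p.1.1 - 39 * D) / 9) (p.1.2 / 27) := by
    intro p
    have hp : p.1.2 ^ 2 = p.1.1 ^ 3 + (AA D : ℚ) * p.1.1 + (BB D : ℚ) := p.2
    have he : (Wt a b).toAffine.Equation ((p.1.1 - 39 * D) / 9) (p.1.2 / 27) := by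
      rw [Wt_eqn, ha, hbd]
      simp only [AA, BB] at hp
      push_cast at hp
      linear_combination (1 / 729 : ℚ) * hp
    have hΔ : (Wt a b).Δ ≠ 0 := by
      have h1 : (Wt a b).Δ = 16 * b ^ 2 * (a ^ 2 - 4 * b) := by
        simp only [Wt, WeierstrassCurve.Δ, WeierstrassCurve.b₂, WeierstrassCurve.b₄,
          WeierstrassCurve.b₆, WeierstrassCurve.b₈]
        ring
      rw [h1]
      exact mul_ne_zero (mul_ne_zero (by norm_num) (pow_ne_zero 2 hb)) hd
    exact (Affine.equation_iff_nonsingular_of_Δ_ne_zero hΔ).mp he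
  have hinj : Function.Injective fun p : Pts D =>
      (Affine.Point.some _ _ (hmap p) : (Wt a b).toAffine.Point) := by
    intro p q hpq
    simp only [Affine.Point.some.injEq] at hpq
    apply Subtype.ext
    apply Prod.ext
    · linarith [hpq.1]
    · linarith [hpq.2]
  have : Finite (Pts D) := Finite.of_injective _ hinj
  exact hinf (Set.toFinite _)

end Pool.Agent.N360.AG.CPL
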